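import Pool.Agent.H88.VK.Base

/-!
# Crew VK: part GLM
-/

set_option autoImplicit false

namespace VK

namespace H88

/-- a functional which is nonnegative on `S` and negative on the open segment -/
def Fun (S : Finset Pt) (p q : Pt) : Prop :=
  ∃ f : Fn, (∀ z ∈ S, 0 ≤ ev f z) ∧ ev f p ≤ 0 ∧ ev f q ≤ 0 ∧ (ev f p < 0 ∨ ev f q < 0)

def KK (A B S : Finset Pt) (K : Finset (Pt × Pt)) : Prop :=
  Good A B K ∧ ∀ e ∈ K, Fun S e.1 e.2

theorem kk_empty (A B S : Finset Pt) : KK A B S ∅ := by
  refine ⟨⟨by simp, ?_⟩, ?_⟩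
  · intro e he; simp at he
  · intro e he; simp at he

theorem kk_insert {A B S : Finset Pt} {K : Finset (Pt × Pt)} (h : KK A B S K) {a b : Pt}
    (ha : a ∈ A) (hb : b ∈ B) (hf : Fun S a b)
    (hd : ∀ e ∈ K, Disjoint (openSegment ℝ a b) (openSegment ℝ e.1 e.2)) :
    KK A B S (insert (a, b) K) ∧ (insert (a, b) K).card = K.card + 1 := by
  obtain ⟨⟨h1, h2⟩, h3⟩ := h
  refine ⟨⟨⟨?_, ?_⟩, ?_⟩, ?_⟩
  · intro e he
    rcases Finset.mem_insert.1 he with he | he
    · rw [he]; exact Finset.mem_product.2 ⟨ha, hb⟩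
    · exact h1 he
  · intro e he g hg heg
    rcases Finset.mem_insert.1 he with he | he
    · rcases Finset.mem_insert.1 hg with hg | hg
      · exact absurd (he.trans hg.symm) heg
      · rw [he]; exact hd g hg
    · rcases Finset.mem_insert.1 hg with hg | hg
      · rw [hg]; exact (hd e he).symm
      · exact h2 e he g hg heg
  · intro e he
    rcases Finset.mem_insert.1 he with he | he
    · rw [he]; exact hf
    · exact h3 e he
  · refine Finset.card_insert_of_notMem ?_
    intro hin
    have h4 := hd (a, b) hin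
    have h5 : (openSegment ℝ a b).Nonempty :=
      ⟨(1/2 : ℝ) • a + (1/2 : ℝ) • b, 1/2, 1/2, by norm_num, by norm_num, by norm_num, rfl⟩
    obtain ⟨z, hz⟩ := h5
    exact (Set.disjoint_left.1 h4 hz) hz

theorem kk3 {A B S : Finset Pt} {a1 b1 a2 b2 a3 b3 : Pt}
    (ha1 : a1 ∈ A) (hb1 : b1 ∈ B) (f1 : Fun S a1 b1)
    (ha2 : a2 ∈ A) (hb2 : b2 ∈ B) (f2 : Fun S a2 b2)
    (ha3 : a3 ∈ A) (hb3 : b3 ∈ B) (f3 : Fun S a3 b3)
    (d21 : Disjoint (openSegment ℝ a2 b2) (openSegment ℝ a1 b1))
    (d31 : Disjoint (openSegment ℝ a3 b3) (openSegment ℝ a1 b1))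
    (d32 : Disjoint (openSegment ℝ a3 b3) (openSegment ℝ a2 b2)) :
    ∃ K, KK A B S K ∧ K.card = 3 ∧ ∀ e ∈ K, e = (a1, b1) ∨ e = (a2, b2) ∨ e = (a3, b3) := by
  obtain ⟨k1, c1⟩ := kk_insert (kk_empty A B S) ha1 hb1 f1 (by intro e he; simp at he)
  obtain ⟨k2, c2⟩ := kk_insert k1 ha2 hb2 f2 (by
    intro e he
    rcases Finset.mem_insert.1 he with he | he
    · rw [he]; exact d21
    · simp at he)
  obtain ⟨k3, c3⟩ := kk_insert k2 ha3 hb3 f3 (by
    intro e he
    rcases Finset.mem_insert.1 he with he | he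
    · rw [he]; exact d32
    · rcases Finset.mem_insert.1 he with he | he
      · rw [he]; exact d31
      · simp at he)
  refine ⟨_, k3, by rw [c3, c2, c1, Finset.card_empty], ?_⟩
  intro e he
  rcases Finset.mem_insert.1 he with he | he
  · exact Or.inr (Or.inr he)
  · rcases Finset.mem_insert.1 he with he | he
    · exact Or.inr (Or.inl he)
    · rcases Finset.mem_insert.1 he with he | he
      · exact Or.inl he
      · simp at he

end H88

open H88

theorem GLM_proved (hM : MNR_stmt) (hE : ERM_stmt) (hX : EXT_stmt) (hSEP : SEP_stmt)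
    (hB : BAS_stmt) : GLM_stmt := by
  intro A B t h y2 y1 x1 x2 hdis hDR hAne hBne hpos
  obtain ⟨fr, hy2, hy1, hx1, hx2, supp, zy2, zy1, zx1, zx2, ord1, ord2, ord3, rest⟩ := hDR
  obtain ⟨-, -, -, -, -, -, bER⟩ := hB
  have nAB : ∀ z ∈ A, z ∉ B := fun z hz hz' => (Finset.disjoint_left.1 hdis hz) hz'
  have subA : (A.erase x1).erase x2 ⊆ A := fun z hz =>
    Finset.mem_of_mem_erase (Finset.mem_of_mem_erase hz)
  have subB : (B.erase y1).erase y2 ⊆ B := fun z hz =>
    Finset.mem_of_mem_erase (Finset.mem_of_mem_erase hz)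
  set A' := (A.erase x1).erase x2 with hA'
  set B' := (B.erase y1).erase y2 with hB'
  have dis' : Disjoint A' B' :=
    Finset.disjoint_of_subset_left subA (Finset.disjoint_of_subset_right subB hdis)
  have inA : ∀ z ∈ A', z ∈ A ∧ z ≠ x1 ∧ z ≠ x2 ∧ z ≠ y1 ∧ z ≠ y2 := by
    intro z hz
    refine ⟨subA hz, ?_, Finset.ne_of_mem_erase hz, ?_, ?_⟩
    · exact Finset.ne_of_mem_erase (Finset.mem_of_mem_erase hz)
    · exact fun e => nAB z (subA hz) (e ▸ hy1)
    · exact fun e => nAB z (subA hz) (e ▸ hy2)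
  have inB : ∀ z ∈ B', z ∈ B ∧ z ≠ x1 ∧ z ≠ x2 ∧ z ≠ y1 ∧ z ≠ y2 := by
    intro z hz
    refine ⟨subB hz, ?_, ?_, ?_, Finset.ne_of_mem_erase hz⟩
    · exact fun e => nAB x1 hx1 (e ▸ subB hz)
    · exact fun e => nAB x2 hx2 (e ▸ subB hz)
    · exact Finset.ne_of_mem_erase (Finset.mem_of_mem_erase hz)
  have inS : ∀ z ∈ A' ∪ B', z ∈ A ∪ B ∧ z ≠ x1 ∧ z ≠ x2 ∧ z ≠ y1 ∧ z ≠ y2 := by
    intro z hz
    rcases Finset.mem_union.1 hz with hz | hz
    · obtain ⟨h1, h2⟩ := inA z hz
      exact ⟨Finset.mem_union_left _ h1, h2⟩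
    · obtain ⟨h1, h2⟩ := inB z hz
      exact ⟨Finset.mem_union_right _ h1, h2⟩
  have memS : ∀ z ∈ A ∪ B, z = y2 ∨ z = y1 ∨ z = x1 ∨ z = x2 ∨ z ∈ A' ∪ B' := by
    intro z hz
    by_cases h1 : z = y2
    · exact Or.inl h1
    by_cases h2 : z = y1
    · exact Or.inr (Or.inl h2)
    by_cases h3 : z = x1
    · exact Or.inr (Or.inr (Or.inl h3))
    by_cases h4 : z = x2
    · exact Or.inr (Or.inr (Or.inr (Or.inl h4)))
    refine Or.inr (Or.inr (Or.inr (Or.inr ?_)))
    rcases Finset.mem_union.1 hz with hz | hz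
    · exact Finset.mem_union_left _
        (Finset.mem_erase.2 ⟨h4, Finset.mem_erase.2 ⟨h3, hz⟩⟩)
    · exact Finset.mem_union_right _
        (Finset.mem_erase.2 ⟨h1, Finset.mem_erase.2 ⟨h2, hz⟩⟩)
  obtain ⟨f, s, w, hf, hdf, hdf2, h0, hwS, fw, hhw, hzpos, huniq⟩ :=
    setup hM (A' ∪ B') t h x2 fr
      (fun z hz => supp z (inS z hz).1)
      (fun z hz hz0 => by
        obtain ⟨h1, n1, n2, n3, n4⟩ := inS z hz
        rcases rest z h1 hz0 with h4 | h4 | h4 | h4 | h4
        · exact absurd h4 n4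
        · exact absurd h4 n3
        · exact absurd h4 n1
        · exact absurd h4 n2
        · exact h4)
      (by
        obtain ⟨z, hz, hz'⟩ := hpos
        rcases memS z hz with h1 | h1 | h1 | h1 | h1
        · rw [h1, zy2] at hz'; exact absurd hz' (lt_irrefl _)
        · rw [h1, zy1] at hz'; exact absurd hz' (lt_irrefl _)
        · rw [h1, zx1] at hz'; exact absurd hz' (lt_irrefl _)
        · rw [h1, zx2] at hz'; exact absurd hz' (lt_irrefl _)
        · exact ⟨z, h1, hz'⟩)
  have fx2 : ev f x2 = 0 := by rw [hf, zx2]; ring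
  have fx1 : ev f x1 < 0 := by rw [hf, zx1]; linarith
  have fy1 : ev f y1 < 0 := by rw [hf, zy1]; linarith
  have fy2 : ev f y2 < 0 := by rw [hf, zy2]; linarith
  obtain ⟨e, r, he, hde, he0, hez⟩ := epart hM (A' ∪ B') f h w h0 huniq
  have ew : ev e w = 0 := by rw [he, fw]; ring
  have ex2 : ev e x2 < 0 := by rw [he, fx2, zx2]; linarith
  have hdfh : det f h ≠ 0 := by rw [hdf]; exact fr
  -- the functional of the line `y2 w`
  have gy2 : ev (ln t h y2 w) y2 = 0 := by rw [ev_ln, zy2]; ring
  have gw : ev (ln t h y2 w) w = 0 := by rw [ev_ln]; ring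
  have gy1 : 0 < ev (ln t h y2 w) y1 := by
    rw [ev_ln, zy1]
    have : 0 < ev h w * (ev t y1 - ev t y2) := mul_pos hhw (by linarith)
    linarith
  have gx1 : 0 < ev (ln t h y2 w) x1 := by
    rw [ev_ln, zx1]
    have : 0 < ev h w * (ev t x1 - ev t y2) := mul_pos hhw (by linarith)
    linarith
  have gx2 : 0 < ev (ln t h y2 w) x2 := by
    rw [ev_ln, zx2]
    have : 0 < ev h w * (ev t x2 - ev t y2) := mul_pos hhw (by linarith)
    linarith
  have gneg : ∀ u, ev f u = 0 → ev h w < ev h u → ev (ln t h y2 w) u < 0 := by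
    intro u hu hhu
    have h3 := line_id (v := y2) hf fw u
    rw [hu, mul_zero] at h3
    have : 0 < (ev t x2 - ev t y2) * (ev h u - ev h w) :=
      mul_pos (by linarith) (by linarith)
    linarith
  have hnw : -ev h w < 0 := by linarith
  -- adding a family
  have final : ∀ K, KK A B (A' ∪ B') K → ∀ n, Fge A' B' n → Fge A B (n + K.card) := by
    intro K hK n hn
    exact hX A B A' B' K n subA subB hK.1 (fun e he => hK.2 e he) hn
  rcases Finset.mem_union.1 hwS with hwA | hwB
  · -- w ∈ A
    have hwA' : w ∈ A := subA hwA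
    obtain ⟨K, hK, hKc, hKm⟩ := kk3 (A := A) (B := B) (S := A' ∪ B') (a1 := x1) (b1 := y1)
      (a2 := w) (b2 := y1) (a3 := w) (b3 := y2) hx1 hy1
      ⟨f, h0, fx1.le, fy1.le, Or.inl fx1⟩ hwA' hy1 ⟨f, h0, fw.le, fy1.le, Or.inr fy1⟩
      hwA' hy2 ⟨f, h0, fw.le, fy2.le, Or.inr fy2⟩
      (hSEP w y1 x1 y1 (ng h) (by rw [ev_ng]; linarith) (by rw [ev_ng, zy1]; simp)
        (Or.inl (by rw [ev_ng]; exact hnw)) (by rw [ev_ng, zx1]; simp)
        (by rw [ev_ng, zy1]; simp))
      (hSEP w y2 x1 y1 (ng h) (by rw [ev_ng]; linarith) (by rw [ev_ng, zy2]; simp)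
        (Or.inl (by rw [ev_ng]; exact hnw)) (by rw [ev_ng, zx1]; simp)
        (by rw [ev_ng, zy1]; simp))
      (by
        have k1 : ev (ln t h y1 w) w = 0 := by rw [ev_ln]; ring
        have k2 : ev (ln t h y1 w) y1 = 0 := by rw [ev_ln, zy1]; ring
        have k3 : ev (ln t h y1 w) y2 < 0 := by
          rw [ev_ln, zy2]
          have : ev h w * (ev t y2 - ev t y1) < 0 :=
            mul_neg_of_pos_of_neg hhw (by linarith)
          linarith
        exact hSEP w y2 w y1 (ln t h y1 w) k1.le k3.le (Or.inr k3) k1.ge k2.ge)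
    have four : ∀ u ∈ A', ev (ln t h y2 w) u < 0 → Fun (A' ∪ B') u y2 →
        ∀ n, Fge A' B' n → Fge A B (n + 4) := by
      intro u hu hgu hfu n hn
      obtain ⟨k4, c4⟩ := kk_insert hK (subA hu) hy2 hfu (by
        intro e he
        rcases hKm e he with he | he | he
        · rw [he]
          exact hSEP u y2 x1 y1 (ln t h y2 w) hgu.le gy2.le (Or.inl hgu) gx1.le gy1.le
        · rw [he]
          exact hSEP u y2 w y1 (ln t h y2 w) hgu.le gy2.le (Or.inl hgu) gw.ge gy1.le
        · rw [he]
          exact hSEP u y2 w y2 (ln t h y2 w) hgu.le gy2.le (Or.inl hgu) gw.ge gy2.ge)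
      have := final _ k4 n hn
      rwa [c4, hKc] at this
    have k3 : ∀ n, Fge A' B' n → Fge A B (n + 3) := by
      intro n hn
      have := final _ hK n hn
      rwa [hKc] at this
    by_cases hu : ∃ u ∈ A', u ≠ w ∧ ev f u = 0
    · left
      obtain ⟨u, hu, huw, fu⟩ := hu
      exact four u hu (gneg u fu (huniq u (Finset.mem_union_left _ hu) fu huw))
        ⟨f, h0, fu.le, fy2.le, Or.inr fy2⟩
    · push Not at hu
      by_cases hz : ∃ z ∈ A' ∪ B', z ≠ w ∧ ev f z = 0
      · right; left
        refine ⟨k3, ?_⟩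
        refine hE A' B' h f w dis' ?_ hwA fw h0 hz ?_
        · intro hh
          apply hdfh
          unfold det at hh ⊢
          linarith
        · intro z hz hzw hzf
          refine ⟨?_, huniq z hz hzf hzw⟩
          rcases Finset.mem_union.1 hz with h1 | h1
          · exact absurd hzf (hu z h1 hzw)
          · exact h1
      · push Not at hz
        have only : ∀ z ∈ A' ∪ B', ev f z = 0 → z = w := by
          intro z hz1 hz2
          by_contra hc
          exact hz z hz1 hc hz2
        rcases gpart hM (A' ∪ B') t h f x2 y2 w s fr hf hdf2 h0 fw hhw (by linarith) only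
          with hg | ⟨e', r', hr', he', hde', he0', z0, hz0, hz0f, hz0e⟩
        · right; right
          left
          refine ⟨h, ln t h y2 w, y2, w, ⟨?_, hy2, hwA', ?_, gy2, gw, ?_, ?_⟩⟩
          · have h3 : det h (ln t h y2 w) = -(ev h w) * det t h := by
              unfold det ln lin; ring
            rw [h3]
            exact mul_ne_zero (neg_ne_zero.2 hhw.ne') fr
          · intro z hz
            rcases memS z hz with h1 | h1 | h1 | h1 | h1
            · rw [h1, gy2]
            · rw [h1]; exact gy1.le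
            · rw [h1]; exact gx1.le
            · rw [h1]; exact gx2.le
            · exact (hg z h1).1
          · rw [zy2]; exact hhw
          · intro z hz hz0
            rcases memS z hz with h1 | h1 | h1 | h1 | h1
            · exact Or.inl h1
            · rw [h1] at hz0; exact absurd hz0 gy1.ne'
            · rw [h1] at hz0; exact absurd hz0 gx1.ne'
            · rw [h1] at hz0; exact absurd hz0 gx2.ne'
            · by_cases hzw : z = w
              · exact Or.inr (Or.inl hzw)
              · exact Or.inr (Or.inr ((hg z h1).2 hz0 hzw))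
        · have e'w : ev e' w = 0 := by rw [he', gw, fw]; ring
          have e'y2 : ev e' y2 < 0 := by
            rw [he', gy2, zero_sub]
            have : 0 < r' * ev f y2 := mul_pos_of_neg_of_neg hr' fy2
            linarith
          by_cases hu2 : ∃ u ∈ A', u ≠ w ∧ ev e' u = 0
          · left
            obtain ⟨u, hu2, huw, eu⟩ := hu2
            have fu : 0 < ev f u :=
              lt_of_le_of_ne (h0 u (Finset.mem_union_left _ hu2))
                (fun hh => hu u hu2 huw hh.symm)
            have gu : ev (ln t h y2 w) u < 0 := by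
              have := he' u
              rw [eu] at this
              have h5 : r' * ev f u < 0 := mul_neg_of_neg_of_pos hr' fu
              linarith
            exact four u hu2 gu ⟨e', he0', eu.le, e'y2.le, Or.inr e'y2⟩
          · push Not at hu2
            right; left
            refine ⟨k3, ?_⟩
            refine hE A' B' f e' w dis' hde' hwA e'w he0' ?_ ?_
            · exact ⟨z0, hz0, fun hh => by rw [hh, fw] at hz0f; exact lt_irrefl _ hz0f, hz0e⟩
            · intro z hz hzw hze
              refine ⟨?_, ?_⟩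
              · rcases Finset.mem_union.1 hz with h1 | h1
                · exact absurd hze (hu2 z h1 hzw)
                · exact h1
              · rw [fw]
                exact lt_of_le_of_ne (h0 z hz) (fun hh => hzw (only z hz hh.symm))
  · -- w ∈ B
    have hwB' : w ∈ B := subB hwB
    obtain ⟨K, hK, hKc, hKm⟩ := kk3 (A := A) (B := B) (S := A' ∪ B') (a1 := x1) (b1 := y1)
      (a2 := x1) (b2 := w) (a3 := x2) (b3 := w) hx1 hy1
      ⟨f, h0, fx1.le, fy1.le, Or.inl fx1⟩ hx1 hwB' ⟨f, h0, fx1.le, fw.le, Or.inl fx1⟩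
      hx2 hwB' ⟨e, he0, ex2.le, ew.le, Or.inl ex2⟩
      (hSEP x1 w x1 y1 (ng h) (by rw [ev_ng, zx1]; simp) (by rw [ev_ng]; exact hnw.le)
        (Or.inr (by rw [ev_ng]; exact hnw)) (by rw [ev_ng, zx1]; simp)
        (by rw [ev_ng, zy1]; simp))
      (hSEP x2 w x1 y1 (ng h) (by rw [ev_ng, zx2]; simp) (by rw [ev_ng]; exact hnw.le)
        (Or.inr (by rw [ev_ng]; exact hnw)) (by rw [ev_ng, zx1]; simp)
        (by rw [ev_ng, zy1]; simp))
      (by
        have k1 : ev (ng (ln t h x1 w)) w = 0 := by rw [ev_ng, ev_ln]; ring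
        have k2 : ev (ng (ln t h x1 w)) x1 = 0 := by rw [ev_ng, ev_ln, zx1]; ring
        have k3 : ev (ng (ln t h x1 w)) x2 < 0 := by
          rw [ev_ng, ev_ln, zx2]
          have : 0 < ev h w * (ev t x2 - ev t x1) := mul_pos hhw (by linarith)
          linarith
        exact hSEP x2 w x1 w (ng (ln t h x1 w)) k3.le k1.le (Or.inl k3) k2.ge k1.ge)
    have k3 : ∀ n, Fge A' B' n → Fge A B (n + 3) := by
      intro n hn
      have := final _ hK n hn
      rwa [hKc] at this
    by_cases hu : ∃ u ∈ A', ev f u = 0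
    · left
      obtain ⟨u, hu, fu⟩ := hu
      intro n hn
      have huw : u ≠ w := fun hh => nAB u (subA hu) (hh ▸ hwB')
      have hgu := gneg u fu (huniq u (Finset.mem_union_left _ hu) fu huw)
      obtain ⟨k4, c4⟩ := kk_insert hK (subA hu) hy2 ⟨f, h0, fu.le, fy2.le, Or.inr fy2⟩ (by
        intro e he
        rcases hKm e he with he | he | he
        · rw [he]
          exact hSEP u y2 x1 y1 (ln t h y2 w) hgu.le gy2.le (Or.inl hgu) gx1.le gy1.le
        · rw [he]
          exact hSEP u y2 x1 w (ln t h y2 w) hgu.le gy2.le (Or.inl hgu) gx1.le gw.ge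
        · rw [he]
          exact hSEP u y2 x2 w (ln t h y2 w) hgu.le gy2.le (Or.inl hgu) gx2.le gw.ge)
      have := final _ k4 n hn
      rwa [c4, hKc] at this
    · push Not at hu
      obtain ⟨a, ha⟩ := hAne
      have hfa : 0 < ev f a :=
        lt_of_le_of_ne (h0 a (Finset.mem_union_left _ ha)) (hu a ha).symm
      obtain ⟨z0, hz0, hz0f, hz0e⟩ := hez ⟨a, Finset.mem_union_left _ ha, hfa⟩
      by_cases hu2 : ∃ u ∈ B', u ≠ w ∧ ev e u = 0
      · left
        obtain ⟨u, hu2, huw, eu⟩ := hu2
        intro n hn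
        have huS : u ∈ A' ∪ B' := Finset.mem_union_right _ hu2
        have fu : 0 < ev f u := by
          refine lt_of_le_of_ne (h0 u huS) (fun hh => ?_)
          have h5 := huniq u huS hh.symm huw
          have h6 := he u
          rw [eu, ← hh] at h6
          linarith
        have nx1 : 0 < ev (ng f) x1 := by rw [ev_ng]; linarith
        have ny1 : 0 < ev (ng f) y1 := by rw [ev_ng]; linarith
        have nx2 : ev (ng f) x2 = 0 := by rw [ev_ng, fx2]; simp
        have nw : ev (ng f) w = 0 := by rw [ev_ng, fw]; simp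
        have nu : ev (ng f) u < 0 := by rw [ev_ng]; linarith
        obtain ⟨k4, c4⟩ := kk_insert hK hx2 (subB hu2) ⟨e, he0, ex2.le, eu.le, Or.inl ex2⟩ (by
          intro e he
          rcases hKm e he with he | he | he
          · rw [he]
            exact hSEP x2 u x1 y1 (ng f) nx2.le nu.le (Or.inr nu) nx1.le ny1.le
          · rw [he]
            exact hSEP x2 u x1 w (ng f) nx2.le nu.le (Or.inr nu) nx1.le nw.ge
          · rw [he]
            exact hSEP x2 u x2 w (ng f) nx2.le nu.le (Or.inr nu) nx2.ge nw.ge)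
        have := final _ k4 n hn
        rwa [c4, hKc] at this
      · push Not at hu2
        right; left
        refine ⟨k3, ?_⟩
        apply bER
        refine hE B' A' f e w dis'.symm (by rw [hde]; exact hdfh) hwB ew
          (fun z hz => he0 z (by rwa [Finset.union_comm] at hz)) ?_ ?_
        · exact ⟨z0, by rwa [Finset.union_comm],
            fun hh => by rw [hh, fw] at hz0f; exact lt_irrefl _ hz0f, hz0e⟩
        · intro z hz hzw hze
          rw [Finset.union_comm] at hz
          have hzA : z ∈ A' := by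
            rcases Finset.mem_union.1 hz with h1 | h1
            · exact h1
            · exact absurd hze (hu2 z h1 hzw)
          refine ⟨hzA, ?_⟩
          rw [fw]
          exact lt_of_le_of_ne (h0 z hz) (hu z hzA).symm

end VK
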