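import Pool.Agent.H88.VK.Base

/-!
# Crew VK: part TLM
-/

set_option autoImplicit false

namespace VK

open H88

theorem TLM_proved (hM : MNR_stmt) (hE : ERM_stmt) (hT : STR_stmt) (hB : BAS_stmt) :
    TLM_stmt := by
  intro A B t h v x hdis hER hAne hBne hpos
  obtain ⟨fr, hv, hx, supp, zv, zx, ord, rest⟩ := hER
  obtain ⟨bMono, bSub, bSwap, -, -, -, bER⟩ := hB
  have hvA : v ∉ A := fun hh => (Finset.disjoint_left.1 hdis hh) hv
  have hxB : x ∉ B := fun hh => (Finset.disjoint_left.1 hdis hx) hh
  have hvx : v ≠ x := fun e => hvA (e ▸ hx)
  have dis' : Disjoint (A.erase x) (B.erase v) :=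
    Finset.disjoint_of_subset_left (Finset.erase_subset _ _)
      (Finset.disjoint_of_subset_right (Finset.erase_subset _ _) hdis)
  have inS : ∀ z ∈ A.erase x ∪ B.erase v, z ∈ A ∪ B ∧ z ≠ v ∧ z ≠ x := by
    intro z hz
    rcases Finset.mem_union.1 hz with hz | hz
    · exact ⟨Finset.mem_union_left _ (Finset.mem_of_mem_erase hz),
        fun e => hvA (e ▸ Finset.mem_of_mem_erase hz), Finset.ne_of_mem_erase hz⟩
    · exact ⟨Finset.mem_union_right _ (Finset.mem_of_mem_erase hz), Finset.ne_of_mem_erase hz,
        fun e => hxB (e ▸ Finset.mem_of_mem_erase hz)⟩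
  have memS : ∀ z ∈ A ∪ B, z = v ∨ z = x ∨ z ∈ A.erase x ∪ B.erase v := by
    intro z hz
    by_cases h1 : z = v
    · exact Or.inl h1
    by_cases h2 : z = x
    · exact Or.inr (Or.inl h2)
    right; right
    rcases Finset.mem_union.1 hz with hz | hz
    · exact Finset.mem_union_left _ (Finset.mem_erase.2 ⟨h2, hz⟩)
    · exact Finset.mem_union_right _ (Finset.mem_erase.2 ⟨h1, hz⟩)
  -- adding the points
  have addV : ∀ (W : Finset Pt) (m : ℕ), W ⊆ A →
      (∀ u ∈ W, ∃ f : Fn, (∀ z ∈ A ∪ B.erase v, 0 ≤ ev f z) ∧ ev f u = 0 ∧ ev f v < 0) →
      Fge A (B.erase v) m → Fge A B (m + W.card) := by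
    intro W m hW h1 h2
    have := hT A (B.erase v) W v m hW h1 h2
    rwa [Finset.insert_erase hv] at this
  have addX : ∀ (W : Finset Pt) (m : ℕ), W ⊆ B.erase v →
      (∀ u ∈ W, ∃ f : Fn, (∀ z ∈ A.erase x ∪ B.erase v, 0 ≤ ev f z) ∧ ev f u = 0 ∧
        ev f x < 0) →
      Fge (A.erase x) (B.erase v) m → Fge A (B.erase v) (m + W.card) := by
    intro W m hW h1 h2
    have := hT (B.erase v) (A.erase x) W x m hW
      (fun u hu => by
        obtain ⟨f, hf1, hf2⟩ := h1 u hu
        exact ⟨f, fun z hz => hf1 z (by rwa [Finset.union_comm]), hf2⟩) (bSwap _ _ _ h2)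
    rw [Finset.insert_erase hx] at this
    exact bSwap _ _ _ this
  obtain ⟨f, s, w, hf, hdf, hdf2, h0, hwS, fw, hhw, hzpos, huniq⟩ :=
    setup hM (A.erase x ∪ B.erase v) t h x fr
      (fun z hz => supp z (inS z hz).1)
      (fun z hz hz0 => by
        obtain ⟨h1, h2, h3⟩ := inS z hz
        rcases rest z h1 hz0 with h4 | h4 | h4
        · exact absurd h4 h2
        · exact absurd h4 h3
        · exact h4)
      (by
        obtain ⟨z, hz, hz'⟩ := hpos
        rcases memS z hz with h1 | h1 | h1
        · rw [h1, zv] at hz'; exact absurd hz' (lt_irrefl _)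
        · rw [h1, zx] at hz'; exact absurd hz' (lt_irrefl _)
        · exact ⟨z, h1, hz'⟩)
  have fx : ev f x = 0 := by rw [hf, zx]; ring
  have fv : ev f v < 0 := by rw [hf, zv]; linarith
  have f0x : ∀ z ∈ A ∪ B.erase v, 0 ≤ ev f z := by
    intro z hz
    by_cases hzx : z = x
    · rw [hzx, fx]
    · refine h0 z ?_
      rcases Finset.mem_union.1 hz with hz | hz
      · exact Finset.mem_union_left _ (Finset.mem_erase.2 ⟨hzx, hz⟩)
      · exact Finset.mem_union_right _ hz
  obtain ⟨e, r, he, hde, he0, hez⟩ := epart hM (A.erase x ∪ B.erase v) f h w h0 huniq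
  have ew : ev e w = 0 := by rw [he, fw]; ring
  have ex : ev e x < 0 := by rw [he, fx, zx]; linarith
  have hdfh : det f h ≠ 0 := by rw [hdf]; exact fr
  rcases Finset.mem_union.1 hwS with hwA | hwB
  swap
  · -- w ∈ B
    have hX1 : ∀ m, Fge (A.erase x) (B.erase v) m → Fge A (B.erase v) (m + 1) := by
      intro m hm
      have := addX {w} m (by simpa using hwB)
        (fun u hu => ⟨e, he0, by rw [Finset.mem_singleton.1 hu]; exact ew, ex⟩) hm
      simpa using this
    refine ⟨?_, ?_⟩
    · intro n hn
      have := addV {x} (n + 1) (by simpa using hx)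
        (fun u hu => ⟨f, f0x, by rw [Finset.mem_singleton.1 hu]; exact fx, fv⟩) (hX1 n hn)
      simpa using this
    · by_cases hu : ∃ u ∈ A.erase x, ev f u = 0
      · left
        obtain ⟨u, hu, fu⟩ := hu
        intro n hn
        have := addV {x, u} (n + 1)
          (by
            intro z hz
            rcases Finset.mem_insert.1 hz with h1 | h1
            · rw [h1]; exact hx
            · rw [Finset.mem_singleton.1 h1]; exact Finset.mem_of_mem_erase hu)
          (fun z hz => ⟨f, f0x, by
            rcases Finset.mem_insert.1 hz with h1 | h1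
            · rw [h1]; exact fx
            · rw [Finset.mem_singleton.1 h1]; exact fu, fv⟩) (hX1 n hn)
        rwa [Finset.card_pair (Finset.ne_of_mem_erase hu).symm] at this
      · push Not at hu
        obtain ⟨a, ha⟩ := hAne
        have hfa : 0 < ev f a :=
          lt_of_le_of_ne (h0 a (Finset.mem_union_left _ ha)) (hu a ha).symm
        obtain ⟨z0, hz0, hz0f, hz0e⟩ := hez ⟨a, Finset.mem_union_left _ ha, hfa⟩
        by_cases hu2 : ∃ u ∈ B.erase v, u ≠ w ∧ ev e u = 0
        · left
          obtain ⟨u, hu2, huw, eu⟩ := hu2
          intro n hn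
          have h2 := addX {w, u} n
            (by
              intro z hz
              rcases Finset.mem_insert.1 hz with h1 | h1
              · rw [h1]; exact hwB
              · rw [Finset.mem_singleton.1 h1]; exact hu2)
            (fun z hz => ⟨e, he0, by
              rcases Finset.mem_insert.1 hz with h1 | h1
              · rw [h1]; exact ew
              · rw [Finset.mem_singleton.1 h1]; exact eu, ex⟩) hn
          rw [Finset.card_pair huw.symm] at h2
          have h3 := addV {x} (n + 2) (by simpa using hx)
            (fun u hu => ⟨f, f0x, by rw [Finset.mem_singleton.1 hu]; exact fx, fv⟩) h2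
          simpa using h3
        · right; left
          push Not at hu2
          apply bER
          refine hE (B.erase v) (A.erase x) f e w dis'.symm (by rw [hde]; exact hdfh) hwB ew
            (fun z hz => he0 z (by rwa [Finset.union_comm] at hz)) ?_ ?_
          · exact ⟨z0, by rwa [Finset.union_comm],
              fun hh => by rw [hh, fw] at hz0f; exact lt_irrefl _ hz0f, hz0e⟩
          · intro z hz hzw hze
            rw [Finset.union_comm] at hz
            have hzA : z ∈ A.erase x := by
              rcases Finset.mem_union.1 hz with h1 | h1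
              · exact h1
              · exact absurd hze (hu2 z h1 hzw)
            refine ⟨hzA, ?_⟩
            rw [fw]
            exact lt_of_le_of_ne (h0 z hz) (hu z hzA).symm
  · -- w ∈ A
    have hwA' : w ∈ A := Finset.mem_of_mem_erase hwA
    have hwx : w ≠ x := Finset.ne_of_mem_erase hwA
    have hX0 : ∀ m, Fge (A.erase x) (B.erase v) m → Fge A (B.erase v) m :=
      fun m hm => bSub _ _ _ _ m (Finset.erase_subset _ _) (subset_refl _) hm
    refine ⟨?_, ?_⟩
    · intro n hn
      have := addV {x, w} n
        (by
          intro z hz
          rcases Finset.mem_insert.1 hz with h1 | h1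
          · rw [h1]; exact hx
          · rw [Finset.mem_singleton.1 h1]; exact hwA')
        (fun z hz => ⟨f, f0x, by
          rcases Finset.mem_insert.1 hz with h1 | h1
          · rw [h1]; exact fx
          · rw [Finset.mem_singleton.1 h1]; exact fw, fv⟩) (hX0 n hn)
      rwa [Finset.card_pair hwx.symm] at this
    · -- three edges at v
      have three : ∀ (u : Pt) (F : Fn), u ∈ A → u ≠ x → u ≠ w →
          (∀ z ∈ A ∪ B.erase v, 0 ≤ ev F z) → ev F u = 0 → ev F v < 0 →
          ∀ n, Fge (A.erase x) (B.erase v) n → Fge A B (n + 3) := by
        intro u F hu hux huw hF hFu hFv n hn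
        have := addV {x, w, u} n
          (by
            intro z hz
            rcases Finset.mem_insert.1 hz with h1 | h1
            · rw [h1]; exact hx
            · rcases Finset.mem_insert.1 h1 with h1 | h1
              · rw [h1]; exact hwA'
              · rw [Finset.mem_singleton.1 h1]; exact hu)
          (fun z hz => by
            rcases Finset.mem_insert.1 hz with h1 | h1
            · exact ⟨f, f0x, by rw [h1]; exact fx, fv⟩
            · rcases Finset.mem_insert.1 h1 with h1 | h1
              · exact ⟨f, f0x, by rw [h1]; exact fw, fv⟩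
              · exact ⟨F, hF, by rw [Finset.mem_singleton.1 h1]; exact hFu, hFv⟩) (hX0 n hn)
        have hc : ({x, w, u} : Finset Pt).card = 3 := by
          rw [Finset.card_insert_of_notMem, Finset.card_pair huw.symm]
          simp only [Finset.mem_insert, Finset.mem_singleton, not_or]
          exact ⟨hwx.symm, hux.symm⟩
        rwa [hc] at this
      by_cases hu : ∃ u ∈ A.erase x, u ≠ w ∧ ev f u = 0
      · left
        obtain ⟨u, hu, huw, fu⟩ := hu
        exact three u f (Finset.mem_of_mem_erase hu) (Finset.ne_of_mem_erase hu) huw f0x fu fv
      · push Not at hu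
        by_cases hz : ∃ z ∈ A.erase x ∪ B.erase v, z ≠ w ∧ ev f z = 0
        · right; left
          refine hE (A.erase x) (B.erase v) h f w dis' ?_ hwA fw h0 hz ?_
          · intro hh
            apply hdfh
            unfold det at hh ⊢
            linarith
          · intro z hz hzw hzf
            refine ⟨?_, huniq z hz hzf hzw⟩
            rcases Finset.mem_union.1 hz with h1 | h1
            · exact absurd hzf (hu z h1 hzw)
            · exact h1
        · push Not at hz
          have only : ∀ z ∈ A.erase x ∪ B.erase v, ev f z = 0 → z = w := by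
            intro z hz1 hz2
            by_contra hc
            exact hz z hz1 hc hz2
          have gv : ev (ln t h v w) v = 0 := by rw [ev_ln, zv]; ring
          have gw : ev (ln t h v w) w = 0 := by rw [ev_ln]; ring
          have gx : 0 < ev (ln t h v w) x := by
            rw [ev_ln, zx]
            have : 0 < ev h w * (ev t x - ev t v) := mul_pos hhw (by linarith)
            linarith
          rcases gpart hM (A.erase x ∪ B.erase v) t h f x v w s fr hf hdf2 h0 fw hhw ord only
            with hg | ⟨e', r', hr', he', hde', he0', z0, hz0, hz0f, hz0e⟩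
          · right; right
            refine ⟨h, ln t h v w, w, ⟨?_, hv, hwA', ?_, gv, gw, ?_, ?_⟩, gx⟩
            · have h3 : det h (ln t h v w) = -(ev h w) * det t h := by
                unfold det ln lin; ring
              rw [h3]
              exact mul_ne_zero (neg_ne_zero.2 hhw.ne') fr
            · intro z hz
              rcases memS z hz with h1 | h1 | h1
              · rw [h1, gv]
              · rw [h1]; exact gx.le
              · exact (hg z h1).1
            · rw [zv]; exact hhw
            · intro z hz hz0
              rcases memS z hz with h1 | h1 | h1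
              · exact Or.inl h1
              · rw [h1] at hz0; exact absurd hz0 gx.ne'
              · by_cases hzw : z = w
                · exact Or.inr (Or.inl hzw)
                · exact Or.inr (Or.inr ((hg z h1).2 hz0 hzw))
          · have e'w : ev e' w = 0 := by rw [he', gw, fw]; ring
            have e'x : 0 < ev e' x := by rw [he', fx]; simpa using gx
            have e'v : ev e' v < 0 := by
              rw [he', gv, zero_sub]
              have : 0 < r' * ev f v := mul_pos_of_neg_of_neg hr' fv
              linarith
            have e'0x : ∀ z ∈ A ∪ B.erase v, 0 ≤ ev e' z := by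
              intro z hz
              by_cases hzx : z = x
              · rw [hzx]; exact e'x.le
              · refine he0' z ?_
                rcases Finset.mem_union.1 hz with hz | hz
                · exact Finset.mem_union_left _ (Finset.mem_erase.2 ⟨hzx, hz⟩)
                · exact Finset.mem_union_right _ hz
            by_cases hu2 : ∃ u ∈ A.erase x, u ≠ w ∧ ev e' u = 0
            · left
              obtain ⟨u, hu2, huw, eu⟩ := hu2
              exact three u e' (Finset.mem_of_mem_erase hu2) (Finset.ne_of_mem_erase hu2) huw
                e'0x eu e'v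
            · push Not at hu2
              right; left
              refine hE (A.erase x) (B.erase v) f e' w dis' hde' hwA e'w he0' ?_ ?_
              · exact ⟨z0, hz0, fun hh => by rw [hh, fw] at hz0f; exact lt_irrefl _ hz0f, hz0e⟩
              · intro z hz hzw hze
                refine ⟨?_, ?_⟩
                · rcases Finset.mem_union.1 hz with h1 | h1
                  · exact absurd hze (hu2 z h1 hzw)
                  · exact h1
                · rw [fw]
                  exact lt_of_le_of_ne (h0 z hz) (fun hh => hzw (only z hz hh.symm))

end VK
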