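import Pool.Agent.H53.VK.Stm

/-!
# Crew VK: common lemmas for the parts TLM and GLM
-/

set_option autoImplicit false

namespace VK.H88

open VK

theorem inj {t h : Fn} (hd : det t h ≠ 0) {z w : Pt} (h1 : ev t z = ev t w)
    (h2 : ev h z = ev h w) : z = w := by
  have e1 : t.a * (z.1 - w.1) + t.b * (z.2 - w.2) = 0 := by unfold ev at h1; linarith
  have e2 : h.a * (z.1 - w.1) + h.b * (z.2 - w.2) = 0 := by unfold ev at h2; linarith
  unfold det at hd
  have k1 : (t.a * h.b - t.b * h.a) * (z.1 - w.1) = 0 := by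
    linear_combination h.b * e1 - t.b * e2
  have k2 : (t.a * h.b - t.b * h.a) * (z.2 - w.2) = 0 := by
    linear_combination t.a * e2 - h.a * e1
  have l1 := (mul_eq_zero.mp k1).resolve_left hd
  have l2 := (mul_eq_zero.mp k2).resolve_left hd
  exact Prod.ext (by linarith) (by linarith)

/-- the line through `p` (with `h p = 0`) and `w` -/
noncomputable def ln (t h : Fn) (p w : Pt) : Fn :=
  lin (ev h w) t (-(ev t w - ev t p)) h (-(ev t p * ev h w))

theorem ev_ln (t h : Fn) (p w z : Pt) :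
    ev (ln t h p w) z = ev h w * (ev t z - ev t p) - (ev t w - ev t p) * ev h z := by
  unfold ln; rw [ev_lin]; ring

noncomputable def ng (f : Fn) : Fn := lin (-1) f 0 f 0

theorem ev_ng (f : Fn) (z : Pt) : ev (ng f) z = - ev f z := by
  unfold ng; rw [ev_lin]; ring

theorem setup (hM : MNR_stmt) (S : Finset Pt) (t h : Fn) (x : Pt) (hd : det t h ≠ 0)
    (h0 : ∀ z ∈ S, 0 ≤ ev h z) (h1 : ∀ z ∈ S, ev h z = 0 → ev t x < ev t z)
    (h2 : ∃ z ∈ S, 0 < ev h z) :
    ∃ (f : Fn) (s : ℝ) (w : Pt), (∀ z, ev f z = ev t z - ev t x - s * ev h z) ∧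
      det f h = det t h ∧
      (∀ k m c : ℝ, det f (lin k t m h c) = (m + s * k) * det t h) ∧
      (∀ z ∈ S, 0 ≤ ev f z) ∧ w ∈ S ∧ ev f w = 0 ∧ 0 < ev h w ∧
      (∀ z ∈ S, ev f z = 0 → 0 < ev h z) ∧
      ∀ z ∈ S, ev f z = 0 → z ≠ w → ev h w < ev h z := by
  obtain ⟨s, hs1, z0, hz0, hz1, hz2⟩ := hM S h (lin 1 t 0 t (-(ev t x))) h0
    (fun z hz hz' => by rw [ev_lin]; have := h1 z hz hz'; linarith) h2
  have hf : ∀ z, ev (lin 1 t (-s) h (-(ev t x))) z = ev t z - ev t x - s * ev h z := by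
    intro z; rw [ev_lin]; ring
  have hdf : det (lin 1 t (-s) h (-(ev t x))) h = det t h := by
    unfold det lin; ring
  have hnn : ∀ z ∈ S, 0 ≤ ev (lin 1 t (-s) h (-(ev t x))) z := by
    intro z hz
    have := hs1 z hz
    rw [ev_lin] at this
    rw [hf]; linarith
  have hne : (S.filter (fun z => ev (lin 1 t (-s) h (-(ev t x))) z = 0)).Nonempty := by
    refine ⟨z0, Finset.mem_filter.2 ⟨hz0, ?_⟩⟩
    rw [ev_lin] at hz2
    rw [hf]; linarith
  have hposz : ∀ z ∈ S, ev (lin 1 t (-s) h (-(ev t x))) z = 0 → 0 < ev h z := by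
    intro z hz hz'
    rcases lt_or_eq_of_le (h0 z hz) with hh | hh
    · exact hh
    · exfalso
      have := h1 z hz hh.symm
      rw [hf, ← hh] at hz'
      linarith
  obtain ⟨w, hw, hmin⟩ := Finset.exists_min_image _ (fun z => ev h z) hne
  obtain ⟨hwS, hw0⟩ := Finset.mem_filter.1 hw
  refine ⟨_, s, w, hf, hdf, fun k m c => by unfold det lin; ring, hnn, hwS, hw0,
    hposz w hwS hw0, hposz, ?_⟩
  intro z hz hz' hzw
  have hle := hmin z (Finset.mem_filter.2 ⟨hz, hz'⟩)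
  rcases lt_or_eq_of_le hle with hh | hh
  · exact hh
  · exact absurd (inj (t := lin 1 t (-s) h (-(ev t x))) (h := h) (by rw [hdf]; exact hd)
      (hz'.trans hw0.symm) hh.symm) hzw

theorem epart (hM : MNR_stmt) (S : Finset Pt) (f h : Fn) (w : Pt)
    (h0 : ∀ z ∈ S, 0 ≤ ev f z) (h1 : ∀ z ∈ S, ev f z = 0 → z ≠ w → ev h w < ev h z) :
    ∃ (e : Fn) (r : ℝ), (∀ z, ev e z = ev h z - ev h w - r * ev f z) ∧ det f e = det f h ∧
      (∀ z ∈ S, 0 ≤ ev e z) ∧
      ((∃ z ∈ S, 0 < ev f z) → ∃ z ∈ S, 0 < ev f z ∧ ev e z = 0) := by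
  have h1' : ∀ z ∈ S, ev f z = 0 → 0 ≤ ev h z - ev h w := by
    intro z hz hz'
    by_cases hzw : z = w
    · rw [hzw]; simp
    · have := h1 z hz hz' hzw; linarith
  by_cases hex : ∃ z ∈ S, 0 < ev f z
  · obtain ⟨r, hr1, z0, hz0, hz1, hz2⟩ := hM S f (lin 1 h 0 h (-(ev h w))) h0
      (fun z hz hz' => by rw [ev_lin]; have := h1' z hz hz'; linarith) hex
    have hf : ∀ z, ev (lin 1 h (-r) f (-(ev h w))) z = ev h z - ev h w - r * ev f z := by
      intro z; rw [ev_lin]; ring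
    refine ⟨_, r, hf, by unfold det lin; ring, ?_, fun _ => ⟨z0, hz0, hz1, ?_⟩⟩
    · intro z hz
      have := hr1 z hz
      rw [ev_lin] at this
      rw [hf]; linarith
    · rw [ev_lin] at hz2
      rw [hf]; linarith
  · have hf : ∀ z, ev (lin 1 h 0 f (-(ev h w))) z = ev h z - ev h w - 0 * ev f z := by
      intro z; rw [ev_lin]; ring
    refine ⟨_, 0, hf, by unfold det lin; ring, ?_, fun hh => absurd hh hex⟩
    intro z hz
    push Not at hex
    have h3 : ev f z = 0 := le_antisymm (hex z hz) (h0 z hz)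
    have := h1' z hz h3
    rw [hf]; linarith

/-- key identity: points of the line `v w` -/
theorem line_id {t h f : Fn} {x v w : Pt} {s : ℝ}
    (hf : ∀ z, ev f z = ev t z - ev t x - s * ev h z) (fw : ev f w = 0) (z : Pt) :
    ev h w * ev f z = ev (ln t h v w) z + (ev t x - ev t v) * (ev h z - ev h w) := by
  rw [ev_ln, hf z]
  have := hf w
  rw [fw] at this
  linear_combination (-(ev h z)) * this

theorem gpart (hM : MNR_stmt) (S : Finset Pt) (t h f : Fn) (x v w : Pt) (s : ℝ)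
    (hd : det t h ≠ 0) (hf : ∀ z, ev f z = ev t z - ev t x - s * ev h z)
    (hdf : ∀ k m c : ℝ, det f (lin k t m h c) = (m + s * k) * det t h)
    (h0 : ∀ z ∈ S, 0 ≤ ev f z) (fw : ev f w = 0) (hhw : 0 < ev h w)
    (vx : ev t v < ev t x) (only : ∀ z ∈ S, ev f z = 0 → z = w) :
    (∀ z ∈ S, 0 ≤ ev (ln t h v w) z ∧ (ev (ln t h v w) z = 0 → z ≠ w → ev h w < ev h z)) ∨
    ∃ (e : Fn) (r : ℝ), r < 0 ∧ (∀ z, ev e z = ev (ln t h v w) z - r * ev f z) ∧ det f e ≠ 0 ∧
      (∀ z ∈ S, 0 ≤ ev e z) ∧ (∃ z ∈ S, 0 < ev f z ∧ ev e z = 0) := by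
  by_cases hg : ∀ z ∈ S, 0 ≤ ev (ln t h v w) z
  · left
    intro z hz
    refine ⟨hg z hz, fun hz0 hzw => ?_⟩
    have h3 := line_id (v := v) hf fw z
    rw [hz0, zero_add] at h3
    have h4 : 0 < ev f z := lt_of_le_of_ne (h0 z hz) (fun hh => hzw (only z hz hh.symm))
    have h5 : 0 < (ev t x - ev t v) * (ev h z - ev h w) := by rw [← h3]; positivity
    have h6 := (mul_pos_iff_of_pos_left (by linarith : 0 < ev t x - ev t v)).1 h5
    linarith
  · right
    push Not at hg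
    obtain ⟨z1, hz1, hz1'⟩ := hg
    have gw : ev (ln t h v w) w = 0 := by rw [ev_ln]; ring
    have hz1f : 0 < ev f z1 := by
      refine lt_of_le_of_ne (h0 z1 hz1) (fun hh => ?_)
      rw [only z1 hz1 hh.symm, gw] at hz1'
      exact lt_irrefl _ hz1'
    obtain ⟨r, hr1, z0, hz0, hz0f, hz0e⟩ := hM S f (ln t h v w) h0
      (fun z hz hz' => by rw [only z hz hz', gw]) ⟨z1, hz1, hz1f⟩
    have hr : r < 0 := by
      by_contra hc
      push Not at hc
      have := hr1 z1 hz1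
      have : 0 ≤ r * ev f z1 := by positivity
      linarith [hr1 z1 hz1]
    have hfe : ∀ z, ev (lin 1 (ln t h v w) (-r) f 0) z = ev (ln t h v w) z - r * ev f z := by
      intro z; rw [ev_lin]; ring
    refine ⟨lin 1 (ln t h v w) (-r) f 0, r, hr, hfe, ?_, ?_, z0, hz0, hz0f, ?_⟩
    · have h3 : det f (lin 1 (ln t h v w) (-r) f 0) = det f (ln t h v w) := by
        unfold det lin; ring
      rw [h3]
      have h4 := hdf (ev h w) (-(ev t w - ev t v)) (-(ev t v * ev h w))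
      have h5 : det f (ln t h v w) =
          (-(ev t w - ev t v) + s * ev h w) * det t h := h4
      rw [h5]
      have h6 := hf w
      rw [fw] at h6
      refine mul_ne_zero ?_ hd
      have : -(ev t w - ev t v) + s * ev h w = ev t v - ev t x := by linarith
      rw [this]
      exact (sub_neg.2 vx).ne
    · intro z hz
      rw [hfe]; exact hr1 z hz
    · rw [hfe]; exact hz0e

end VK.H88
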